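import Pool.Agent.LibMS46.Assembly

/-!
# The theorem of Merkurjev and Suslin implies that the Brauer group vanishes

`F` is a field of characteristic `p > 0` with divisible multiplicative group. The theorem of
Merkurjev and Suslin for the fields `F(ζ_l)`, `l ≠ p` prime, is a hypothesis. It is stated in
`Pool/Agent/LibMS46/Defs.lean`; Brauer equivalence and symbol algebras are defined in
`Pool/Agent/LibBrS/Defs.lean`.
-/

set_option autoImplicit false

open Pool.Agent.LibMS46

namespace Pool.Agent.Results.MP_77b1c8_al.BrauerTrivial

/-- Let `F` be a field of characteristic `p > 0` whose multiplicative group is divisible. Suppose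
that for every prime number `l ≠ p` the conclusion of the theorem of Merkurjev and Suslin holds for
the field `F(ζ_l)`: every central simple algebra over `F(ζ_l)` whose `l`-th tensor power is a
matrix algebra is Brauer equivalent to a tensor product of symbol algebras of degree `l`. Then the
Brauer group of `F` is trivial. -/
theorem result (p : ℕ) [Fact p.Prime] (F : Type) [Field F] [CharP F p]
    (hF : ∀ n : ℕ, n ≠ 0 → ∀ a : Fˣ, ∃ b : Fˣ, b ^ n = a)
    (hMS : ∀ l : ℕ, l.Prime → l ≠ p → MerkurjevSuslin (CyclotomicField l F) l) :
    Subsingleton (BrauerGroup.{0, 0} F) :=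
  brauer_trivial p (div_field hF) hMS

end Pool.Agent.Results.MP_77b1c8_al.BrauerTrivial
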