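import Pool.Agent.LibG44.Final

/-!
# `K_2` of the fields generated by a root of unity over a field with divisible multiplicative group

`K2 E` is Milnor's group `K_2(E)` and `baseSymbols F E` is its subgroup generated by the symbols
`{f, e}` with `f ∈ Fˣ` and `e ∈ Eˣ` (both are defined in `Pool/Agent/LibK2Tower/Symbol.lean`).
-/

namespace Pool.Agent.Results.MP_77b1c8_al.KTwoTorsion

open Module Pool.Agent.LibK2Tower

universe u v

/-- The subgroup `{Fˣ, Eˣ}` is divisible if `Fˣ` is divisible. -/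
theorem exists_nsmul_eq {F : Type v} {E : Type u} [Field F] [Field E] [Algebra F E]
    (hF : ∀ n : ℕ, n ≠ 0 → ∀ a : Fˣ, ∃ b : Fˣ, b ^ n = a) (j : ℕ) (hj : j ≠ 0) {x : K2 E}
    (hx : x ∈ baseSymbols F E) : ∃ y ∈ baseSymbols F E, x = j • y := by
  refine AddSubgroup.closure_induction (p := fun x _ => ∃ y ∈ baseSymbols F E, x = j • y)
    ?_ ?_ ?_ ?_ hx
  · rintro x ⟨f, e, rfl⟩
    obtain ⟨g, rfl⟩ := hF j hj f
    refine ⟨symb (Units.map (algebraMap F E).toMonoidHom g) e,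
      AddSubgroup.subset_closure ⟨g, e, rfl⟩, ?_⟩
    rw [map_pow, isSymbol_symb.pow_left]
  · exact ⟨0, zero_mem _, (smul_zero _).symm⟩
  · rintro x y _ _ ⟨a, ha, rfl⟩ ⟨b, hb, rfl⟩
    exact ⟨a + b, add_mem ha hb, (smul_add _ _ _).symm⟩
  · rintro x _ ⟨a, ha, rfl⟩
    exact ⟨-a, neg_mem ha, (smul_neg _ _).symm⟩

/-- Let `F` be a field of characteristic `p > 0` with divisible multiplicative group and let
`E = F(z)`, where `z` is a root of unity. For every `x ∈ K_2(E)` there are a positive integer `j`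
and an element `y` of the subgroup `{Fˣ, Eˣ}` with `j x = j y`. So `K_2(E)` is the sum of
`{Fˣ, Eˣ}` and its torsion subgroup, and `K_2(E) / {Fˣ, Eˣ}` is a torsion group. -/
theorem result (p : ℕ) [Fact p.Prime] (F : Type v) (E : Type u) [Field F] [CharP F p] [Field E]
    [Algebra F E] (hF : ∀ n : ℕ, n ≠ 0 → ∀ a : Fˣ, ∃ b : Fˣ, b ^ n = a) (z : E) (N : ℕ)
    (hN : N ≠ 0) (hz : z ^ N = 1) (hE : IntermediateField.adjoin F {z} = ⊤) (x : K2 E) :
    ∃ j : ℕ, j ≠ 0 ∧ ∃ y ∈ baseSymbols F E, j • x = j • y := by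
  have hdiv : ∀ m : ℕ, 1 ≤ m → ∀ a : F, ∃ b : F, b ^ m = a := by
    intro m hm a
    rcases eq_or_ne a 0 with rfl | ha
    · exact ⟨0, zero_pow (by omega)⟩
    · obtain ⟨b, hb⟩ := hF m (by omega) (Units.mk0 a ha)
      exact ⟨b, by rw [← Units.val_pow_eq_pow_val, hb, Units.val_mk0]⟩
  have hint : IsIntegral F z :=
    ⟨Polynomial.X ^ N - 1, Polynomial.monic_X_pow_sub_C 1 hN, by simp [hz]⟩
  have hgen : Algebra.adjoin F {z} = ⊤ := by
    rw [← IntermediateField.adjoin_simple_toSubalgebra_of_isAlgebraic hint.isAlgebraic, hE]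
    rfl
  obtain ⟨j, hj, hx⟩ := LibG44.k2_torsion (p := p) hdiv (Nat.pos_of_ne_zero hN) hz hgen x
  obtain ⟨y, hy, h⟩ := exists_nsmul_eq hF j hj.ne' hx
  exact ⟨j, hj.ne', y, hy, h⟩

end Pool.Agent.Results.MP_77b1c8_al.KTwoTorsion
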