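import Pool.Agent.LibPI63.Final

/-!
# The period of a division algebra over a field with divisible multiplicative group

`F` is a field of characteristic `p > 0` with divisible multiplicative group. Tensor powers are
defined in `Pool/Agent/LibMS46/Defs.lean`.
-/

set_option autoImplicit false

open Module Pool.Agent.LibMS46

namespace Pool.Agent.Results.MP_77b1c8_al.PeriodIndex

/-- Let `F` be a field of characteristic `p > 0` whose multiplicative group is divisible. Let `D` be
a central division algebra over `F` of dimension `n ^ 2`, and let `e` be `n` divided by the product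
of the prime divisors of `n`. Then the `e`-th tensor power of `D` is a matrix algebra over `F`. -/
theorem result (p : ℕ) [Fact p.Prime] (F : Type) [Field F] [CharP F p]
    (hF : ∀ n : ℕ, n ≠ 0 → ∀ a : Fˣ, ∃ b : Fˣ, b ^ n = a) (D : Type) [DivisionRing D]
    [Algebra F D] [Algebra.IsCentral F D] (n : ℕ) (hn : n ≠ 0) (hD : finrank F D = n ^ 2)
    (T : Type) [Ring T] [Algebra F T]
    (hT : IsTensorPow F D (n / ∏ l ∈ n.primeFactors, l) T) :
    ∃ m : ℕ, m ≠ 0 ∧ Nonempty (T ≃ₐ[F] Matrix (Fin m) (Fin m) F) :=
  LibPI63.period_index p (div_field hF) hn hD hT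

end Pool.Agent.Results.MP_77b1c8_al.PeriodIndex
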