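import Pool.Agent.LibCocU.Final

/-!
# Algebras which become products of symbol algebras over an extension of `F(z)`, `z` a root of unity

`F` is a field of characteristic `p > 0` with divisible multiplicative group. Brauer equivalence and
symbol algebras are defined in `Pool/Agent/LibBrS/Defs.lean`, tensor powers in
`Pool/Agent/LibMS46/Defs.lean`.
-/

set_option autoImplicit false

open scoped TensorProduct
open Module Pool.Agent.LibBrS Pool.Agent.LibMS46

namespace Pool.Agent.Results.MP_77b1c8_al.SymbolAlgebrasSplit

/-- Let `F` be a field of characteristic `p > 0` whose multiplicative group is divisible, let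
`E = F(z)` where `z` is a root of unity, let `ζ ∈ E` be a primitive `m`-th root of unity, and let
`K` be a finite extension of `E`. Let `A` be a central simple algebra over `F`. If `K ⊗ A` is Brauer
equivalent to a tensor product of symbol algebras `(a_i, b_i)_ζ` of degree `m` over `K`, then the
tensor power of `A` with `[K : E]` factors is a matrix algebra over `F`. -/
theorem result (p : ℕ) [Fact p.Prime] (F : Type) [Field F] [CharP F p]
    (hF : ∀ n : ℕ, n ≠ 0 → ∀ a : Fˣ, ∃ b : Fˣ, b ^ n = a) (E : Type) [Field E] [Algebra F E]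
    (z : E) (N : ℕ) (hN : N ≠ 0) (hz : z ^ N = 1) (hE : IntermediateField.adjoin F {z} = ⊤)
    (m : ℕ) (ζ : E) (hm : 0 < m) (hζ : IsPrimitiveRoot ζ m) (K : Type) [Field K] [Algebra E K]
    [Algebra F K] [IsScalarTower F E K] [FiniteDimensional E K] (A : Type) [Ring A] [Algebra F A]
    [IsSimpleRing A] [Algebra.IsCentral F A] [FiniteDimensional F A]
    (hsym : ∃ (B : Type) (_ : Ring B) (_ : Algebra K B),
      IsSymbProd K m (algebraMap E K ζ) B ∧ BrEq K (K ⊗[F] A) B)
    (T : Type) [Ring T] [Algebra F T] (hT : IsTensorPow F A (finrank E K) T) :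
    ∃ n : ℕ, n ≠ 0 ∧ Nonempty (T ≃ₐ[F] Matrix (Fin n) (Fin n) F) :=
  LibCocU.tensorPow_split_of_div p (div_field hF) hN hz hE hm hζ
    ⟨inferInstance, inferInstance, inferInstance⟩ hsym hT

end Pool.Agent.Results.MP_77b1c8_al.SymbolAlgebrasSplit
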